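import Pool.Agent.P8H19.AO.Orb

set_option autoImplicit false

open Finset ComplexConjugate

namespace Pool.Agent.P8H19.AO

noncomputable section

/-- the general statement, from the packages -/
theorem general (hC : S_CORE) (hP : S_PF) (hH : S_CHR) (hT : S_TYP) (hB : S_BLK) (hQ : S_PAIR)
    (hG : S_GEO) (D : Finset ℤ) (p : ℤ → ℝ) (s h : ℝ) (hD : Dist D p) (hs : s < aff D p)
    (hh : ent D p < h) :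
    (∃ m₀ : ℕ, ∀ m : ℕ, m₀ ≤ m → ∀ X : Finset (EuclideanSpace ℂ (Fin m)), (∀ x ∈ X, ‖x‖ = 1) →
      (∀ x ∈ X, ∀ y ∈ X, x ≠ y → (inner ℂ x y).re ≤ s) →
      (∀ x ∈ X, ∀ y ∈ X, ∀ i, ‖x i‖ = ‖y i‖) → (X.card : ℝ) ≤ Real.exp (m * h)) ∧
    (∃ n₀ : ℕ, ∀ n : ℕ, n₀ ≤ n → ∀ X : Finset (EuclideanSpace ℝ (Fin n)), (∀ x ∈ X, ‖x‖ = 1) →
      (∀ x ∈ X, ∀ y ∈ X, x ≠ y → inner ℝ x y ≤ s) →
      ∀ (N : ℕ) (A : Fin N → Set (EuclideanSpace ℝ (Fin n) ≃ₗᵢ[ℝ] EuclideanSpace ℝ (Fin n)))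
        (v : Fin N → EuclideanSpace ℝ (Fin n)),
        (∀ j, ∀ f ∈ A j, ∀ g ∈ A j, ∀ x, f (g x) = g (f x)) →
        (∀ x ∈ X, ∃ j, ∃ g ∈ A j, x = g (v j)) → (X.card : ℝ) ≤ N * Real.exp (n * h / 2)) := by
  refine ⟨mod hG (lim hC hP hH hT D p s h hD hs hh), ?_⟩
  obtain ⟨h', h1, h2⟩ := exists_between hh
  exact orb hB hQ (lim hC hP hH hT D p s h' hD hs h1) ((ent_nonneg D p hD).trans h1.le) h2

/-- kissing configurations -/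
theorem kissing (hC : S_CORE) (hP : S_PF) (hH : S_CHR) (hT : S_TYP) (hB : S_BLK) (hQ : S_PAIR)
    (hG : S_GEO) (hN : S_NUM) :
    (∃ m₀ : ℕ, ∀ m : ℕ, m₀ ≤ m → ∀ X : Finset (EuclideanSpace ℂ (Fin m)), (∀ x ∈ X, ‖x‖ = 1) →
      (∀ x ∈ X, ∀ y ∈ X, x ≠ y → (inner ℂ x y).re ≤ 1 / 2) →
      (∀ x ∈ X, ∀ y ∈ X, ∀ i, ‖x i‖ = ‖y i‖) → (X.card : ℝ) ≤ (2 : ℝ) ^ ((0.732 : ℝ) * m)) ∧
    (∃ n₀ : ℕ, ∀ n : ℕ, n₀ ≤ n → ∀ X : Finset (EuclideanSpace ℝ (Fin n)), (∀ x ∈ X, ‖x‖ = 1) →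
      (∀ x ∈ X, ∀ y ∈ X, x ≠ y → inner ℝ x y ≤ 1 / 2) →
      ∀ (N : ℕ) (A : Fin N → Set (EuclideanSpace ℝ (Fin n) ≃ₗᵢ[ℝ] EuclideanSpace ℝ (Fin n)))
        (v : Fin N → EuclideanSpace ℝ (Fin n)),
        (∀ j, ∀ f ∈ A j, ∀ g ∈ A j, ∀ x, f (g x) = g (f x)) →
        (∀ x ∈ X, ∃ j, ∃ g ∈ A j, x = g (v j)) →
        (X.card : ℝ) ≤ N * (2 : ℝ) ^ ((0.366 : ℝ) * n)) := by
  obtain ⟨hD, hs, hh⟩ := hN
  have hlog := Real.log_pos (show (1 : ℝ) < 2 by norm_num)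
  obtain ⟨h1, h2⟩ := general hC hP hH hT hB hQ hG Dk pk (1 / 2) (0.732 * Real.log 2) hD hs
    (by nlinarith)
  have e1 : ∀ m : ℕ, Real.exp (m * (0.732 * Real.log 2)) = (2 : ℝ) ^ ((0.732 : ℝ) * m) := fun m => by
    rw [Real.rpow_def_of_pos (by norm_num)]
    congr 1
    ring
  have e2 : ∀ n : ℕ, Real.exp (n * (0.732 * Real.log 2) / 2) = (2 : ℝ) ^ ((0.366 : ℝ) * n) :=
    fun n => by
      rw [Real.rpow_def_of_pos (by norm_num)]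
      congr 1
      ring
  simp only [e1] at h1
  simp only [e2] at h2
  exact ⟨h1, h2⟩

end

end Pool.Agent.P8H19.AO
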