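import Pool.Agent.P8H19.AO.Stm

set_option autoImplicit false

open Finset ComplexConjugate

namespace Pool.Agent.P8H19.AO

noncomputable section

/-- the matrix of `adj` on a finite set -/
def mat {m : ℕ} (a : Fin m → ℝ) (B : Finset (Fin m → ℤ)) : Matrix B B ℝ :=
  fun k l => ∑ i, a i / 2 * ((if (l : Fin m → ℤ) = (k : Fin m → ℤ) + Pi.single i 1 then 1 else 0) +
    (if (l : Fin m → ℤ) = (k : Fin m → ℤ) - Pi.single i 1 then 1 else 0))

lemma mat_symm {m : ℕ} (a : Fin m → ℝ) (B : Finset (Fin m → ℤ)) : (mat a B).IsSymm := by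
  ext k l
  simp only [Matrix.transpose_apply, mat]
  refine Finset.sum_congr rfl fun i _ => ?_
  have h1 : ((k : Fin m → ℤ) = (l : Fin m → ℤ) + Pi.single i 1) ↔ ((l : Fin m → ℤ) = (k : Fin m → ℤ) - Pi.single i 1) :=
    ⟨fun h => by rw [h]; simp, fun h => by rw [h]; simp⟩
  have h2 : ((k : Fin m → ℤ) = (l : Fin m → ℤ) - Pi.single i 1) ↔ ((l : Fin m → ℤ) = (k : Fin m → ℤ) + Pi.single i 1) :=
    ⟨fun h => by rw [h]; simp, fun h => by rw [h]; simp⟩
  simp only [h1, h2]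
  ring

lemma mat_nonneg {m : ℕ} (a : Fin m → ℝ) (ha : ∀ i, 0 ≤ a i) (B : Finset (Fin m → ℤ)) (k l : B) :
    0 ≤ mat a B k l := by
  refine Finset.sum_nonneg fun i _ => mul_nonneg (by have := ha i; positivity) ?_
  split_ifs <;> norm_num

lemma mat_mulVec {m : ℕ} (a : Fin m → ℝ) (B : Finset (Fin m → ℤ)) (W : (Fin m → ℤ) → ℝ)
    (hW : ∀ k, k ∉ B → W k = 0) (k : B) :
    (mat a B).mulVec (fun l : B => W l) k = adj a W k := by
  have key : ∀ c : Fin m → ℤ, ∑ l : B, (if (l : Fin m → ℤ) = c then W l else 0) = W c := by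
    intro c
    rw [Finset.sum_coe_sort B (fun l => if l = c then W l else 0), Finset.sum_ite_eq']
    split_ifs with h
    · rfl
    · exact (hW c h).symm
  simp only [Matrix.mulVec, dotProduct, mat, adj]
  rw [show (∑ x : B, (∑ i, a i / 2 * ((if (x : Fin m → ℤ) = (k : Fin m → ℤ) + Pi.single i 1 then (1 : ℝ) else 0) +
      (if (x : Fin m → ℤ) = (k : Fin m → ℤ) - Pi.single i 1 then 1 else 0))) * W x) =
      ∑ i, ∑ x : B, a i / 2 * ((if (x : Fin m → ℤ) = (k : Fin m → ℤ) + Pi.single i 1 then W x else 0) +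
      (if (x : Fin m → ℤ) = (k : Fin m → ℤ) - Pi.single i 1 then W x else 0)) from ?_]
  · refine Finset.sum_congr rfl fun i _ => ?_
    rw [← Finset.mul_sum, Finset.sum_add_distrib, key, key]
    ring
  · rw [Finset.sum_comm]
    refine Finset.sum_congr rfl fun x _ => ?_
    rw [Finset.sum_mul]
    refine Finset.sum_congr rfl fun i _ => ?_
    split_ifs <;> ring

lemma shift {m : ℕ} (B : Finset (Fin m → ℤ)) (W : (Fin m → ℤ) → ℝ)
    (hW : ∀ k, k ∉ B → W k = 0) (e : Fin m → ℤ) :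
    ∑ k ∈ B, W k * W (k - e) = ∑ k ∈ B, W k * W (k + e) := by
  have h1 : ∑' k, W k * W (k - e) = ∑ k ∈ B, W k * W (k - e) :=
    tsum_eq_sum fun k hk => by rw [hW k hk, zero_mul]
  have h2 : ∑' k, W k * W (k + e) = ∑ k ∈ B, W k * W (k + e) :=
    tsum_eq_sum fun k hk => by rw [hW k hk, zero_mul]
  rw [← h1, ← h2, ← (Equiv.addRight e).tsum_eq (fun k => W k * W (k - e))]
  refine tsum_congr fun k => ?_
  simp [mul_comm]

lemma quad {m : ℕ} (a : Fin m → ℝ) (B : Finset (Fin m → ℤ)) (W : (Fin m → ℤ) → ℝ)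
    (hW : ∀ k, k ∉ B → W k = 0) :
    (fun l : B => W l) ⬝ᵥ (mat a B).mulVec (fun l : B => W l) =
      ∑ i, a i * ∑ k ∈ B, W k * W (k + Pi.single i 1) := by
  have h0 : (mat a B).mulVec (fun l : B => W l) = fun k : B => adj a W k :=
    funext fun k => mat_mulVec a B W hW k
  rw [h0]
  simp only [dotProduct]
  rw [Finset.sum_coe_sort B (fun l => W l * adj a W l)]
  simp only [adj, Finset.mul_sum]
  rw [Finset.sum_comm]
  refine Finset.sum_congr rfl fun i _ => ?_
  have h1 := shift B W hW (Pi.single i 1)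
  have h2 : ∑ k ∈ B, W k * (a i * ((W (k + Pi.single i 1) + W (k - Pi.single i 1)) / 2)) =
      a i / 2 * (∑ k ∈ B, W k * W (k + Pi.single i 1) + ∑ k ∈ B, W k * W (k - Pi.single i 1)) := by
    rw [← Finset.sum_add_distrib, Finset.mul_sum]
    refine Finset.sum_congr rfl fun k _ => ?_
    ring
  rw [h2, h1, ← Finset.mul_sum]
  ring

/-- affinities are at most one -/
lemma aff_le_one (D : Finset ℤ) (p : ℤ → ℝ) (hD : Dist D p) : aff D p ≤ 1 := by
  have hp : ∀ j, 0 ≤ p j := fun j => by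
    by_cases h : j ∈ D
    · exact (hD.pos j h).le
    · exact (hD.zero j h).symm.le
  have h1 : ∀ j ∈ D, √(p j * p (j + 1)) ≤ (p j + p (j + 1)) / 2 := fun j _ => by
    have h3 := hp j
    have h4 := hp (j + 1)
    rw [Real.sqrt_le_left (by positivity)]
    nlinarith [sq_nonneg (p j - p (j + 1))]
  have h2 : ∑ j ∈ D, p (j + 1) ≤ 1 := by
    have h3 : ∑ j ∈ D, p (j + 1) = ∑ j ∈ D.map (addRightEmbedding 1), p j := by
      rw [Finset.sum_map]; rfl
    have h4 : ∑ j ∈ D.map (addRightEmbedding 1), p j = ∑ j ∈ D.map (addRightEmbedding 1) ∩ D, p j := by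
      symm
      refine Finset.sum_subset Finset.inter_subset_left fun j hj hj' => ?_
      exact hD.zero j fun h => hj' (Finset.mem_inter.2 ⟨hj, h⟩)
    rw [h3, h4, ← hD.sum]
    exact Finset.sum_le_sum_of_subset_of_nonneg Finset.inter_subset_right fun j _ _ => hp j
  calc aff D p ≤ ∑ j ∈ D, (p j + p (j + 1)) / 2 := Finset.sum_le_sum h1
    _ = (∑ j ∈ D, p j + ∑ j ∈ D, p (j + 1)) / 2 := by
        rw [← Finset.sum_add_distrib, Finset.sum_div]
    _ ≤ 1 := by rw [hD.sum]; linarith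

lemma ent_nonneg (D : Finset ℤ) (p : ℤ → ℝ) (hD : Dist D p) : 0 ≤ ent D p := by
  have h1 : ∀ j ∈ D, p j * Real.log (p j) ≤ 0 := fun j hj => by
    have h2 : p j ≤ 1 := by
      rw [← hD.sum]
      exact Finset.single_le_sum (f := p) (fun i hi => (hD.pos i hi).le) hj
    exact mul_nonpos_of_nonneg_of_nonpos (hD.pos j hj).le (Real.log_nonpos (hD.pos j hj).le h2)
  have h3 := Finset.sum_nonpos h1
  simp only [ent]
  linarith

/-- codes on tori -/
theorem lim (hC : S_CORE) (hP : S_PF) (hH : S_CHR) (hT : S_TYP) (D : Finset ℤ) (p : ℤ → ℝ)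
    (s h : ℝ) (hD : Dist D p) (hs : s < aff D p) (hh : ent D p < h) :
    ∃ m₀ : ℕ, ∀ m : ℕ, m₀ ≤ m → ∀ (C : Type) [Fintype C] (a : Fin m → ℝ) (u : C → Fin m → ℂ),
      TCode s C a u → (Fintype.card C : ℝ) ≤ Real.exp (m * h) := by
  have hs1 : s < 1 := lt_of_lt_of_le hs (aff_le_one D p hD)
  obtain ⟨h', hh1, hh2⟩ := exists_between hh
  set η : ℝ := (aff D p - s) / 2 with hη
  have hη0 : 0 < η := by rw [hη]; linarith
  obtain ⟨m₀, hm₀⟩ := hT hH D p h' η hD hh1 hη0
  -- for large m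
  obtain ⟨m₁, hm₁⟩ : ∃ m₁ : ℕ, ∀ m : ℕ, m₁ ≤ m → (1 - s) / η ≤ Real.exp (m * (h - h')) := by
    obtain ⟨N, hN⟩ := exists_nat_gt (((1 - s) / η) / (h - h'))
    refine ⟨N, fun m hm => ?_⟩
    have h1 : 0 < h - h' := by linarith
    have h2 : (1 - s) / η < N * (h - h') := by rwa [div_lt_iff₀ h1] at hN
    have h3 : (N : ℝ) * (h - h') ≤ m * (h - h') :=
      mul_le_mul_of_nonneg_right (by exact_mod_cast hm) h1.le
    have h4 := Real.add_one_le_exp ((m : ℝ) * (h - h'))
    linarith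
  refine ⟨max m₀ m₁, fun m hm C _ a u hcode => ?_⟩
  obtain ⟨B, ψ, hB, hψ0, hψB, hψ1, hψp, hψi⟩ := hm₀ m (le_trans (le_max_left _ _) hm)
  set v : B → ℝ := fun l => ψ l with hv
  have hvv : v ⬝ᵥ v = ∑ k ∈ B, ψ k ^ 2 := by
    simp only [dotProduct, hv]
    rw [Finset.sum_coe_sort B (fun l => ψ l * ψ l)]
    exact Finset.sum_congr rfl fun k _ => by ring
  have hv0 : v ≠ 0 := by
    intro h0
    rw [h0] at hvv
    simp at hvv
    linarith
  obtain ⟨w, lam, hw0, hwn, hweig, hray⟩ := hP B (mat a B) (mat_symm a B)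
    (fun i j => mat_nonneg a hcode.nonneg B i j) v hv0
  -- the Rayleigh quotient
  have hq : v ⬝ᵥ (mat a B).mulVec v = ∑ i, a i * ∑ k ∈ B, ψ k * ψ (k + Pi.single i 1) :=
    quad a B ψ hψB
  have hq0 : 0 ≤ v ⬝ᵥ (mat a B).mulVec v := by
    rw [hq]
    exact Finset.sum_nonneg fun i _ => mul_nonneg (hcode.nonneg i)
      (Finset.sum_nonneg fun k _ => mul_nonneg (hψ0 _) (hψ0 _))
  have hq1 : aff D p - η ≤ v ⬝ᵥ (mat a B).mulVec v := by
    rw [hq]
    calc aff D p - η = ∑ i, a i * (aff D p - η) := by rw [← Finset.sum_mul, hcode.sum, one_mul]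
      _ ≤ _ := Finset.sum_le_sum fun i _ => mul_le_mul_of_nonneg_left (hψi i) (hcode.nonneg i)
  have hlam : s + η ≤ lam := by
    rw [hvv] at hray
    have h1 : max (s + η) 0 ≤ v ⬝ᵥ (mat a B).mulVec v := by
      refine max_le ?_ hq0
      have : s + η = aff D p - η := by rw [hη]; ring
      rw [this]
      exact hq1
    have h2 : max (s + η) 0 * ∑ k ∈ B, ψ k ^ 2 ≤ max (s + η) 0 * 1 :=
      mul_le_mul_of_nonneg_left hψ1 (le_max_right _ _)
    have h3 : max (s + η) 0 * ∑ k ∈ B, ψ k ^ 2 ≤ lam * ∑ k ∈ B, ψ k ^ 2 := by linarith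
    exact le_trans (le_max_left _ _) (le_of_mul_le_mul_right h3 hψp)
  -- the eigenvector, extended by zero
  set W : (Fin m → ℤ) → ℝ := fun k => if hk : k ∈ B then w ⟨k, hk⟩ else 0 with hW
  have hW0 : ∀ k, 0 ≤ W k := fun k => by
    simp only [hW]
    split_ifs with hk
    · exact hwn _
    · exact le_rfl
  have hWB : ∀ k, k ∉ B → W k = 0 := fun k hk => by simp only [hW]; rw [dif_neg hk]
  have hWw : (fun l : B => W l) = w := by
    funext l
    simp only [hW]
    rw [dif_pos l.2]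
  have hWn : ∃ k, W k ≠ 0 := by
    by_contra hcon
    push Not at hcon
    apply hw0
    rw [← hWw]
    funext l
    simp [hcon]
  have hWe : ∀ k ∈ B, lam * W k ≤ adj a W k := by
    intro k hk
    have h1 := mat_mulVec a B W hWB ⟨k, hk⟩
    rw [hWw, hweig] at h1
    simp only [Pi.smul_apply, smul_eq_mul] at h1
    rw [← h1]
    simp only [hW]
    rw [dif_pos hk]
  have hfin := hC m s lam C a u hcode (by linarith) hs1.le B W hW0 hWB hWn hWe
  have h5 : (Fintype.card C : ℝ) * η ≤ (1 - s) * Real.exp (m * h') := by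
    calc (Fintype.card C : ℝ) * η ≤ (Fintype.card C : ℝ) * (lam - s) :=
          mul_le_mul_of_nonneg_left (by linarith) (by positivity)
      _ ≤ (1 - s) * B.card := hfin
      _ ≤ _ := mul_le_mul_of_nonneg_left hB (by linarith)
  have h6 : (Fintype.card C : ℝ) ≤ (1 - s) / η * Real.exp (m * h') := by
    rw [div_mul_eq_mul_div, le_div_iff₀ hη0]
    exact h5
  calc (Fintype.card C : ℝ) ≤ (1 - s) / η * Real.exp (m * h') := h6
    _ ≤ Real.exp (m * (h - h')) * Real.exp (m * h') :=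
        mul_le_mul_of_nonneg_right (hm₁ m (le_trans (le_max_right _ _) hm)) (Real.exp_pos _).le
    _ = Real.exp (m * h) := by rw [← Real.exp_add]; congr 1; ring

end

end Pool.Agent.P8H19.AO
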