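import Pool.Agent.P8H19.AO.Fin

set_option autoImplicit false

open Finset ComplexConjugate

namespace Pool.Agent.P8H19.AO

noncomputable section

/-- moving the points of a spherical code by at most `δ` -/
lemma near {𝕜 E : Type} [RCLike 𝕜] [NormedAddCommGroup E] [InnerProductSpace 𝕜 E] {s δ : ℝ}
    (hsδ : s + 2 * δ < 1) (X : Finset E) (hX : ∀ x ∈ X, ‖x‖ = 1)
    (hXs : ∀ x ∈ X, ∀ y ∈ X, x ≠ y → RCLike.re (inner 𝕜 x y) ≤ s) (P : E → Prop)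
    (hP : ∀ x ∈ X, ∃ y, P y ∧ ‖y‖ = 1 ∧ ‖x - y‖ ≤ δ) :
    ∃ Y : Finset E, Y.card = X.card ∧ (∀ y ∈ Y, ‖y‖ = 1) ∧
      (∀ x ∈ Y, ∀ y ∈ Y, x ≠ y → RCLike.re (inner 𝕜 x y) ≤ s + 2 * δ) ∧ ∀ y ∈ Y, P y := by
  classical
  choose! f hf1 hf2 hf3 using hP
  have key : ∀ x ∈ X, ∀ y ∈ X, x ≠ y → RCLike.re (inner 𝕜 (f x) (f y)) ≤ s + 2 * δ := by
    intro x hx y hy hxy
    have e : (inner 𝕜 (f x) (f y) : 𝕜) = inner 𝕜 x y + inner 𝕜 (f x - x) y + inner 𝕜 (f x) (f y - y) := by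
      rw [inner_sub_left, inner_sub_right]
      ring
    have h1 : RCLike.re (inner 𝕜 (f x - x) y : 𝕜) ≤ δ := by
      refine (RCLike.re_le_norm _).trans ((norm_inner_le_norm _ _).trans ?_)
      rw [hX y hy, mul_one, norm_sub_rev]
      exact hf3 x hx
    have h2 : RCLike.re (inner 𝕜 (f x) (f y - y) : 𝕜) ≤ δ := by
      refine (RCLike.re_le_norm _).trans ((norm_inner_le_norm _ _).trans ?_)
      rw [hf2 x hx, one_mul, norm_sub_rev]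
      exact hf3 y hy
    have h3 := hXs x hx y hy hxy
    rw [e, map_add, map_add]
    linarith
  have hinj : Set.InjOn f X := by
    intro x hx y hy hxy
    by_contra hne
    have h1 := key x hx y hy hne
    rw [hxy, inner_self_eq_norm_sq_to_K, hf2 y hy] at h1
    simp at h1
    linarith
  refine ⟨X.image f, Finset.card_image_of_injOn hinj, ?_, ?_, ?_⟩
  · intro y hy
    obtain ⟨x, hx, rfl⟩ := Finset.mem_image.1 hy
    exact hf2 x hx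
  · intro y hy y' hy' hne
    obtain ⟨x, hx, rfl⟩ := Finset.mem_image.1 hy
    obtain ⟨x', hx', rfl⟩ := Finset.mem_image.1 hy'
    exact key x hx x' hx' fun h => hne (by rw [h])
  · intro y hy
    obtain ⟨x, hx, rfl⟩ := Finset.mem_image.1 hy
    exact hf1 x hx

/-- the bound in `ℂ ^ m` for `N` tori -/
theorem tori {h : ℝ} {s : ℝ} {m : ℕ}
    (H : ∀ X : Finset (EuclideanSpace ℂ (Fin m)), (∀ x ∈ X, ‖x‖ = 1) →
      (∀ x ∈ X, ∀ y ∈ X, x ≠ y → (inner ℂ x y).re ≤ s) →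
      (∀ x ∈ X, ∀ y ∈ X, ∀ i, ‖x i‖ = ‖y i‖) → (X.card : ℝ) ≤ Real.exp (m * h))
    (X : Finset (EuclideanSpace ℂ (Fin m))) (hX : ∀ x ∈ X, ‖x‖ = 1)
    (hXs : ∀ x ∈ X, ∀ y ∈ X, x ≠ y → (inner ℂ x y).re ≤ s) (N : ℕ) (r : Fin N → Fin m → ℝ)
    (hXr : ∀ x ∈ X, ∃ j, ∀ i, ‖x i‖ = r j i) : (X.card : ℝ) ≤ N * Real.exp (m * h) := by
  classical
  set Y : Fin N → Finset (EuclideanSpace ℂ (Fin m)) :=
    fun j => X.filter fun x => ∀ i, ‖x i‖ = r j i with hY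
  have hYX : X ⊆ Finset.univ.biUnion Y := fun x hx => by
    obtain ⟨j, hj⟩ := hXr x hx
    exact Finset.mem_biUnion.2 ⟨j, Finset.mem_univ _, Finset.mem_filter.2 ⟨hx, hj⟩⟩
  have hYc : ∀ j, ((Y j).card : ℝ) ≤ Real.exp (m * h) := fun j => by
    refine H (Y j) (fun x hx => hX x (Finset.mem_filter.1 hx).1)
      (fun x hx y hy hxy => hXs x (Finset.mem_filter.1 hx).1 y (Finset.mem_filter.1 hy).1 hxy)
      (fun x hx y hy i => ?_)
    rw [(Finset.mem_filter.1 hx).2 i, (Finset.mem_filter.1 hy).2 i]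
  calc (X.card : ℝ) ≤ ((Finset.univ.biUnion Y).card : ℝ) := by
        exact_mod_cast Finset.card_le_card hYX
    _ ≤ ((∑ j, (Y j).card : ℕ) : ℝ) := by exact_mod_cast Finset.card_biUnion_le
    _ = ∑ j, ((Y j).card : ℝ) := by push_cast; rfl
    _ ≤ ∑ j : Fin N, Real.exp (m * h) := Finset.sum_le_sum fun j _ => hYc j
    _ = N * Real.exp (m * h) := by simp

/-- the general statement, from the packages -/
theorem generalNear (hC : S_CORE) (hP : S_PF) (hH : S_CHR) (hT : S_TYP) (hB : S_BLK) (hQ : S_PAIR)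
    (hG : S_GEO) (D : Finset ℤ) (p : ℤ → ℝ) (s δ h : ℝ) (hD : Dist D p) (hs : s + 2 * δ < aff D p)
    (hh : ent D p < h) :
    (∃ m₀ : ℕ, ∀ m : ℕ, m₀ ≤ m → ∀ X : Finset (EuclideanSpace ℂ (Fin m)), (∀ x ∈ X, ‖x‖ = 1) →
      (∀ x ∈ X, ∀ y ∈ X, x ≠ y → (inner ℂ x y).re ≤ s) →
      ∀ (N : ℕ) (r : Fin N → Fin m → ℝ), (∀ j, ∑ i, r j i ^ 2 = 1) →
        (∀ x ∈ X, ∃ j, ∃ y : EuclideanSpace ℂ (Fin m), (∀ i, ‖y i‖ = r j i) ∧ ‖x - y‖ ≤ δ) →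
        (X.card : ℝ) ≤ N * Real.exp (m * h)) ∧
    (∃ n₀ : ℕ, ∀ n : ℕ, n₀ ≤ n → ∀ X : Finset (EuclideanSpace ℝ (Fin n)), (∀ x ∈ X, ‖x‖ = 1) →
      (∀ x ∈ X, ∀ y ∈ X, x ≠ y → inner ℝ x y ≤ s) →
      ∀ (N : ℕ) (A : Fin N → Set (EuclideanSpace ℝ (Fin n) ≃ₗᵢ[ℝ] EuclideanSpace ℝ (Fin n)))
        (v : Fin N → EuclideanSpace ℝ (Fin n)),
        (∀ j, ∀ f ∈ A j, ∀ g ∈ A j, ∀ x, f (g x) = g (f x)) → (∀ j, ‖v j‖ = 1) →
        (∀ x ∈ X, ∃ j, ∃ g ∈ A j, ‖x - g (v j)‖ ≤ δ) →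
        (X.card : ℝ) ≤ N * Real.exp (n * h / 2)) := by
  have h1 : s + 2 * δ < 1 := lt_of_lt_of_le hs (aff_le_one D p hD)
  obtain ⟨⟨m₀, hm₀⟩, n₀, hn₀⟩ := general hC hP hH hT hB hQ hG D p (s + 2 * δ) h hD hs hh
  refine ⟨⟨m₀, fun m hm X hX hXs N r hr hXr => ?_⟩, n₀, fun n hn X hX hXs N A v hA hv hXA => ?_⟩
  · obtain ⟨Y, hYc, hY1, hY2, hY3⟩ := near (𝕜 := ℂ) h1 X hX hXs
      (fun y => ∃ j, ∀ i, ‖y i‖ = r j i) (fun x hx => by
        obtain ⟨j, y, hy1, hy2⟩ := hXr x hx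
        refine ⟨y, ⟨j, hy1⟩, ?_, hy2⟩
        rw [EuclideanSpace.norm_eq, Real.sqrt_eq_one, ← hr j]
        exact Finset.sum_congr rfl fun i _ => by rw [hy1 i])
    rw [← hYc]
    exact tori (hm₀ m hm) Y hY1 hY2 N r hY3
  · obtain ⟨Y, hYc, hY1, hY2, hY3⟩ := near (𝕜 := ℝ) h1 X hX (by simpa using hXs)
      (fun y => ∃ j, ∃ g ∈ A j, y = g (v j)) (fun x hx => by
        obtain ⟨j, g, hg, hy2⟩ := hXA x hx
        exact ⟨g (v j), ⟨j, g, hg, rfl⟩, by rw [g.norm_map, hv j], hy2⟩)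
    rw [← hYc]
    exact hn₀ n hn Y hY1 (by simpa using hY2) N A v hA hY3

/-- the affinity of `pk` -/
lemma aff_pk : (50051 / 100000 : ℝ) < aff Dk pk := by
  have h1 : (24243 / 100000 : ℝ) ≤ √(682 / 10000 * (8618 / 10000)) := by
    apply Real.le_sqrt_of_sq_le
    norm_num
  have h2 : (783 / 100000 : ℝ) ≤ √(9 / 10000 * (682 / 10000)) := by
    apply Real.le_sqrt_of_sq_le
    norm_num
  have h3 : aff Dk pk = √(9 / 10000 * (682 / 10000)) + (√(682 / 10000 * (8618 / 10000)) +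
      (√(8618 / 10000 * (682 / 10000)) + (√(682 / 10000 * (9 / 10000)) + 0))) := by
    simp only [aff, Dk]
    rw [Finset.sum_insert (by decide), Finset.sum_insert (by decide), Finset.sum_insert (by decide),
      Finset.sum_insert (by decide), Finset.sum_singleton]
    norm_num [pk]
  rw [h3, mul_comm (8618 / 10000 : ℝ), mul_comm (682 / 10000 : ℝ) (9 / 10000)]
  linarith

end

end Pool.Agent.P8H19.AO
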