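import Pool.Agent.P8H23.AO.Num

/-!
# Project AO: numerics for the second distribution (after helper23's `Num.lean`)
-/

set_option autoImplicit false

open Finset

namespace Pool.Agent.P8H19.AO

/-- the distribution for neighbourhoods of radius `1 / 100` -/
noncomputable def qk (j : ℤ) : ℝ :=
  if j = 0 then 8490 / 10000 else if j = 1 ∨ j = -1 then 745 / 10000 else
    if j = 2 ∨ j = -2 then 10 / 10000 else 0

theorem qk0 : qk 0 = 8490 / 10000 := by unfold qk; norm_num
theorem qk1 : qk 1 = 745 / 10000 := by unfold qk; norm_num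
theorem qkm1 : qk (-1) = 745 / 10000 := by unfold qk; norm_num
theorem qk2 : qk 2 = 10 / 10000 := by unfold qk; norm_num
theorem qkm2 : qk (-2) = 10 / 10000 := by unfold qk; norm_num
theorem qk3 : qk 3 = 0 := by unfold qk; norm_num

set_option exponentiation.threshold 20000 in
theorem bigq : (10000 : ℕ) ^ 10000 < 2 ^ 7790 * 8490 ^ 8490 * 745 ^ 1490 * 10 ^ 20 :=
  by decide +kernel

theorem dist_q : Dist Dk qk where
  pos := by
    intro j hj
    simp only [Dk, mem_insert, mem_singleton] at hj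
    rcases hj with rfl | rfl | rfl | rfl | rfl
    · rw [qkm2]; norm_num
    · rw [qkm1]; norm_num
    · rw [qk0]; norm_num
    · rw [qk1]; norm_num
    · rw [qk2]; norm_num
  zero := by
    intro j hj
    simp only [Dk, mem_insert, mem_singleton, not_or] at hj
    unfold qk
    rw [if_neg hj.2.2.1, if_neg (by tauto), if_neg (by tauto)]
  sum := by
    rw [P8H23.AO.sum_Dk, qk0, qk1, qkm1, qk2, qkm2]
    norm_num

theorem aff_qk : (1 / 2 : ℝ) + 2 * (1 / 100) < aff Dk qk := by
  unfold aff
  rw [P8H23.AO.sum_Dk]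
  rw [show (-2 : ℤ) + 1 = -1 by norm_num, show (-1 : ℤ) + 1 = 0 by norm_num,
    show (0 : ℤ) + 1 = 1 by norm_num, show (1 : ℤ) + 1 = 2 by norm_num,
    show (2 : ℤ) + 1 = 3 by norm_num, qk0, qk1, qkm1, qk2, qkm2, qk3]
  have h1 : (25149 / 100000 : ℝ) < √(745 / 10000 * (8490 / 10000)) := by
    rw [Real.lt_sqrt (by norm_num)]
    norm_num
  have h1' : (25149 / 100000 : ℝ) < √(8490 / 10000 * (745 / 10000)) := by
    rw [Real.lt_sqrt (by norm_num)]
    norm_num
  have h2 : (863 / 100000 : ℝ) < √(10 / 10000 * (745 / 10000)) := by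
    rw [Real.lt_sqrt (by norm_num)]
    norm_num
  have h2' : (863 / 100000 : ℝ) < √(745 / 10000 * (10 / 10000)) := by
    rw [Real.lt_sqrt (by norm_num)]
    norm_num
  have h3 : (0 : ℝ) ≤ √(10 / 10000 * 0) := Real.sqrt_nonneg _
  linarith

theorem ent_qk : ent Dk qk < 7790 / 10000 * Real.log 2 := by
  unfold ent
  rw [P8H23.AO.sum_Dk, qk0, qk1, qkm1, qk2, qkm2]
  have e : ∀ x : ℝ, 0 < x → Real.log (x / 10000) = Real.log x - Real.log 10000 := fun x hx =>
    Real.log_div hx.ne' (by norm_num)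
  rw [e 8490 (by norm_num), e 745 (by norm_num), e 10 (by norm_num)]
  have hb : ((10000 : ℕ) : ℝ) ^ 10000 < (2 : ℕ) ^ 7790 * (8490 : ℕ) ^ 8490 * (745 : ℕ) ^ 1490 *
      (10 : ℕ) ^ 20 := by exact_mod_cast bigq
  have hl := Real.log_lt_log (by positivity) hb
  rw [Real.log_mul (by positivity) (by positivity), Real.log_mul (by positivity) (by positivity),
    Real.log_mul (by positivity) (by positivity), Real.log_pow, Real.log_pow, Real.log_pow,
    Real.log_pow, Real.log_pow] at hl
  push_cast at hl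
  linarith

end Pool.Agent.P8H19.AO
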