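import Pool.Agent.P8H19.AO.Lim

set_option autoImplicit false

open Finset ComplexConjugate

namespace Pool.Agent.P8H19.AO

noncomputable section

/-- adding coordinates of weight zero -/
lemma pad {m d : ℕ} {s : ℝ} {C : Type} {a : Fin m → ℝ} {u : C → Fin m → ℂ} (h : TCode s C a u) :
    TCode s C (Fin.append a (fun _ : Fin d => (0 : ℝ))) (fun x => Fin.append (u x) (fun _ : Fin d => (1 : ℂ))) where
  nonneg := fun i => by
    refine Fin.addCases (fun i => ?_) (fun i => ?_) i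
    · simpa using h.nonneg i
    · simp
  sum := by
    rw [Fin.sum_univ_add]
    simpa using h.sum
  norm := fun x i => by
    refine Fin.addCases (fun i => ?_) (fun i => ?_) i
    · simpa using h.norm x i
    · simp
  sep := fun x y hxy => by
    rw [Fin.sum_univ_add]
    simpa using h.sep x y hxy

lemma pad' {m m' : ℕ} (hm : m ≤ m') {s : ℝ} {C : Type} {a : Fin m → ℝ} {u : C → Fin m → ℂ}
    (h : TCode s C a u) : ∃ (a' : Fin m' → ℝ) (u' : C → Fin m' → ℂ), TCode s C a' u' := by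
  obtain ⟨d, rfl⟩ := Nat.exists_eq_add_of_le hm
  exact ⟨_, _, pad h⟩

/-- the bound for codes on tori, as a hypothesis -/
def Lim (s h : ℝ) : Prop :=
  ∃ m₀ : ℕ, ∀ m : ℕ, m₀ ≤ m → ∀ (C : Type) [Fintype C] (a : Fin m → ℝ) (u : C → Fin m → ℂ),
    TCode s C a u → (Fintype.card C : ℝ) ≤ Real.exp (m * h)

/-- the bound in `ℝ ^ n` for a single family -/
lemma piece (hB : S_BLK) (hQ : S_PAIR) {s h h' : ℝ} (hL : Lim s h') (h0 : 0 ≤ h') (hh : h' < h) :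
    ∃ n₀ : ℕ, ∀ n : ℕ, n₀ ≤ n → ∀ X : Finset (EuclideanSpace ℝ (Fin n)), (∀ x ∈ X, ‖x‖ = 1) →
      (∀ x ∈ X, ∀ y ∈ X, x ≠ y → inner ℝ x y ≤ s) →
      ∀ (A : Set (EuclideanSpace ℝ (Fin n) ≃ₗᵢ[ℝ] EuclideanSpace ℝ (Fin n)))
        (v : EuclideanSpace ℝ (Fin n)), (∀ f ∈ A, ∀ g ∈ A, ∀ x, f (g x) = g (f x)) →
        (∀ x ∈ X, ∃ g ∈ A, x = g v) → (X.card : ℝ) ≤ Real.exp (n * h / 2) := by
  obtain ⟨m₀, hm₀⟩ := hL
  obtain ⟨K, hK⟩ := exists_nat_gt (h' / (h - h'))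
  refine ⟨max (2 * m₀ + 1) K, fun n hn X hX hXs A v hA hXA => ?_⟩
  have hn1 : 2 * m₀ + 1 ≤ n := le_trans (le_max_left _ _) hn
  have hn2 : K ≤ n := le_trans (le_max_right _ _) hn
  rcases X.eq_empty_or_nonempty with rfl | ⟨x₀, hx₀⟩
  · simp [Real.exp_nonneg]
  have hv : ‖v‖ = 1 := by
    obtain ⟨g, _, hg⟩ := hXA x₀ hx₀
    rw [← hX x₀ hx₀, hg, g.norm_map]
  -- enumeration
  set e : Fin X.card ≃ X := (Finset.equivFin X).symm with he
  have hch : ∀ k : Fin X.card, ∃ g ∈ A, ((e k : X) : EuclideanSpace ℝ (Fin n)) = g v :=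
    fun k => hXA _ (e k).2
  choose U hUA hU using hch
  obtain ⟨r₁, r₂, a, b, σ, z, hr, ha, hb, hab, hσ, hz, hin⟩ := hB n X.card U
    (fun j k x => hA _ (hUA j) _ (hUA k) x) v hv
  obtain ⟨m, c, u, hm, hc, hcs, hu, huin⟩ := hQ n X.card r₁ r₂ a b σ z hr ha hb hab hσ hz
  have hcode : TCode s (Fin X.card) c u :=
    { nonneg := hc
      sum := hcs
      norm := hu
      sep := fun j k hjk => by
        rw [huin, ← hin, ← hU j, ← hU k]
        refine hXs _ (e j).2 _ (e k).2 fun h => hjk ?_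
        exact e.injective (Subtype.ext h) }
  obtain ⟨a', u', hcode'⟩ := pad' (m' := (n + 1) / 2) (by omega) hcode
  have h1 := hm₀ ((n + 1) / 2) (by omega) (Fin X.card) a' u' hcode'
  rw [Fintype.card_fin] at h1
  refine h1.trans (Real.exp_le_exp.2 ?_)
  have h2 : (((n + 1) / 2 : ℕ) : ℝ) ≤ ((n : ℝ) + 1) / 2 := by
    have := @Nat.cast_div_le ℝ _ _ _ (n + 1) 2
    push_cast at this
    exact this
  have h3 : h' < n * (h - h') := by
    have h4 : 0 < h - h' := by linarith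
    rw [div_lt_iff₀ h4] at hK
    have h5 : (K : ℝ) * (h - h') ≤ n * (h - h') :=
      mul_le_mul_of_nonneg_right (by exact_mod_cast hn2) h4.le
    linarith
  have h6 : (((n + 1) / 2 : ℕ) : ℝ) * h' ≤ ((n : ℝ) + 1) / 2 * h' :=
    mul_le_mul_of_nonneg_right h2 h0
  nlinarith

/-- the bound in `ℝ ^ n` for `N` families -/
theorem orb (hB : S_BLK) (hQ : S_PAIR) {s h h' : ℝ} (hL : Lim s h') (h0 : 0 ≤ h') (hh : h' < h) :
    ∃ n₀ : ℕ, ∀ n : ℕ, n₀ ≤ n → ∀ X : Finset (EuclideanSpace ℝ (Fin n)), (∀ x ∈ X, ‖x‖ = 1) →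
      (∀ x ∈ X, ∀ y ∈ X, x ≠ y → inner ℝ x y ≤ s) →
      ∀ (N : ℕ) (A : Fin N → Set (EuclideanSpace ℝ (Fin n) ≃ₗᵢ[ℝ] EuclideanSpace ℝ (Fin n)))
        (v : Fin N → EuclideanSpace ℝ (Fin n)),
        (∀ j, ∀ f ∈ A j, ∀ g ∈ A j, ∀ x, f (g x) = g (f x)) →
        (∀ x ∈ X, ∃ j, ∃ g ∈ A j, x = g (v j)) → (X.card : ℝ) ≤ N * Real.exp (n * h / 2) := by
  classical
  obtain ⟨n₀, hn₀⟩ := piece hB hQ hL h0 hh
  refine ⟨n₀, fun n hn X hX hXs N A v hA hXA => ?_⟩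
  set Y : Fin N → Finset (EuclideanSpace ℝ (Fin n)) :=
    fun j => X.filter fun x => ∃ g ∈ A j, x = g (v j) with hY
  have hYX : X ⊆ Finset.univ.biUnion Y := fun x hx => by
    obtain ⟨j, hj⟩ := hXA x hx
    exact Finset.mem_biUnion.2 ⟨j, Finset.mem_univ _, Finset.mem_filter.2 ⟨hx, hj⟩⟩
  have hYc : ∀ j, ((Y j).card : ℝ) ≤ Real.exp (n * h / 2) := fun j => by
    refine hn₀ n hn (Y j) (fun x hx => hX x (Finset.mem_filter.1 hx).1)
      (fun x hx y hy hxy => hXs x (Finset.mem_filter.1 hx).1 y (Finset.mem_filter.1 hy).1 hxy)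
      (A j) (v j) (hA j) (fun x hx => (Finset.mem_filter.1 hx).2)
  calc (X.card : ℝ) ≤ ((Finset.univ.biUnion Y).card : ℝ) := by
        exact_mod_cast Finset.card_le_card hYX
    _ ≤ ((∑ j, (Y j).card : ℕ) : ℝ) := by exact_mod_cast Finset.card_biUnion_le
    _ = ∑ j, ((Y j).card : ℝ) := by push_cast; rfl
    _ ≤ ∑ j : Fin N, Real.exp (n * h / 2) := Finset.sum_le_sum fun j _ => hYc j
    _ = N * Real.exp (n * h / 2) := by simp

/-- the bound in `ℂ ^ m` -/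
theorem mod (hG : S_GEO) {s h : ℝ} (hL : Lim s h) :
    ∃ m₀ : ℕ, ∀ m : ℕ, m₀ ≤ m → ∀ X : Finset (EuclideanSpace ℂ (Fin m)), (∀ x ∈ X, ‖x‖ = 1) →
      (∀ x ∈ X, ∀ y ∈ X, x ≠ y → (inner ℂ x y).re ≤ s) →
      (∀ x ∈ X, ∀ y ∈ X, ∀ i, ‖x i‖ = ‖y i‖) → (X.card : ℝ) ≤ Real.exp (m * h) := by
  obtain ⟨m₀, hm₀⟩ := hL
  refine ⟨max m₀ 1, fun m hm X hX hXs hXn => ?_⟩
  obtain ⟨a, u, hcode⟩ := hG m s X (le_trans (le_max_right _ _) hm) hX hXs hXn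
  have h1 := hm₀ m (le_trans (le_max_left _ _) hm) X a u hcode
  rwa [Fintype.card_coe] at h1

end

end Pool.Agent.P8H19.AO
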