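import Mathlib

/-!
# Project AO (helper19): spherical codes on tori and in few orbits of abelian groups

Row MP_b5f63d_co. THEOREM: a kissing configuration of `ℝ ^ n` (unit vectors, inner products `≤ 1 / 2`)
which is contained in `N` orbits of abelian groups of isometries has at most `N * 2 ^ (0.366 n)` points,
`n` large (all configurations: `2 ^ (0.401 n)`, Kabatiansky and Levenshtein); the same for configurations
in `ℂ ^ m`, `n = 2 m`, with `|x i|` the same for all points `x`; and a formula for all angles.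

Packages (all independent, Mathlib only): CORE, PF, CHR, TYP, NUM, BLK, PAIR, GEO.
-/

set_option autoImplicit false

open Finset ComplexConjugate

namespace Pool.Agent.P8H19.AO

noncomputable section

/-- A code on a torus: `u x i` are complex numbers of absolute value one, `a i` weights. -/
structure TCode {m : ℕ} (s : ℝ) (C : Type) (a : Fin m → ℝ) (u : C → Fin m → ℂ) : Prop where
  nonneg : ∀ i, 0 ≤ a i
  sum : ∑ i, a i = 1
  norm : ∀ x i, ‖u x i‖ = 1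
  sep : ∀ x y, x ≠ y → ∑ i, a i * (u x i * conj (u y i)).re ≤ s

/-- multiplication by `∑ a i cos θ i` on the Fourier coefficients -/
def adj {m : ℕ} (a : Fin m → ℝ) (ψ : (Fin m → ℤ) → ℝ) (k : Fin m → ℤ) : ℝ :=
  ∑ i, a i * ((ψ (k + Pi.single i 1) + ψ (k - Pi.single i 1)) / 2)

/-- CORE (the bound of Delsarte, 150 lines).
Proof. For `x y : C` and `k : Fin m → ℤ` put `w k x y = ∏ i, (u x i * conj (u y i)) ^ (k i)` (`zpow`;
so `w (k + l) = w k * w l`, `conj (w k x y) = w (-k) x y`, `w (± single i 1) x y` is `u x i * conj (u y i)`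
resp. its conjugate, and `w k x y = c k x * conj (c k y)` with `c k x = ∏ i, (u x i) ^ (k i)`). Let
`K x y = ∑ i, a i * (u x i * conj (u y i)).re`, `F x y = ∑ k ∈ B, ψ k * w k x y` and
`f x y = (K x y - s) * ‖F x y‖ ^ 2`. Then
(i) `f x y ≤ 0` for `x ≠ y`, and `f x x = (1 - s) * (∑ k ∈ B, ψ k) ^ 2 ≤ (1 - s) * B.card * ∑ k ∈ B, ψ k ^ 2`
(Cauchy-Schwarz), so `∑ x, ∑ y, f x y ≤ card C * (1 - s) * B.card * ∑ k ∈ B, ψ k ^ 2`.
(ii) `(K x y - s) * F x y = ∑ k ∈ B', θ k * w k x y`, `θ k = adj a ψ k - s * ψ k`, `B'` the union of `B`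
and its translates by `± single i 1` (so `adj a ψ` vanishes outside `B'`), hence
`f x y = ∑ k ∈ B', ∑ j ∈ B, θ k * ψ j * w (k - j) x y`, and
`∑ x, ∑ y, w l x y = ‖∑ x, c l x‖ ^ 2 ≥ 0`, which is `(card C) ^ 2` for `l = 0`. All `θ k ≥ 0` (`k ∉ B`:
`adj a ψ k ≥ 0`) and `θ k ≥ (lam - s) ψ k` for `k ∈ B`, so
`∑ x, ∑ y, f x y ≥ (lam - s) * (∑ k ∈ B, ψ k ^ 2) * (card C) ^ 2`. Divide by `∑ ψ k ^ 2 > 0` and `card C`. -/
def S_CORE : Prop :=
  ∀ (m : ℕ) (s lam : ℝ) (C : Type) [Fintype C] (a : Fin m → ℝ) (u : C → Fin m → ℂ),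
    TCode s C a u → s < lam → s ≤ 1 → ∀ (B : Finset (Fin m → ℤ)) (ψ : (Fin m → ℤ) → ℝ),
    (∀ k, 0 ≤ ψ k) → (∀ k, k ∉ B → ψ k = 0) → (∃ k, ψ k ≠ 0) →
    (∀ k ∈ B, lam * ψ k ≤ adj a ψ k) →
    (Fintype.card C : ℝ) * (lam - s) ≤ (1 - s) * B.card

/-- PF (Perron and Frobenius for symmetric matrices, 80 lines).
Proof. The Rayleigh quotient `(v ⬝ᵥ M.mulVec v) / (v ⬝ᵥ v)` is largest at some `w` on the unit sphere
(compactness), with the value `lam`; `|w|` has a quotient at least as large, as the entries of `M` are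
nonnegative, so we may take `w ≥ 0`. A maximum is an eigenvector: for every `z`,
`0 ≤ lam * ‖w + t z‖² - ⟨w + t z, M (w + t z)⟩` for all `t`, so the linear coefficient
`2 (lam * ⟨w, z⟩ - ⟨z, M w⟩)` vanishes. (Or `IsSelfAdjoint.hasEigenvector_of_isMaxOn`, or the spectral
theorem.) -/
def S_PF : Prop :=
  ∀ (β : Type) [Fintype β] [DecidableEq β] (M : Matrix β β ℝ), M.IsSymm → (∀ i j, 0 ≤ M i j) →
    ∀ v : β → ℝ, v ≠ 0 → ∃ (w : β → ℝ) (lam : ℝ), w ≠ 0 ∧ (∀ i, 0 ≤ w i) ∧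
      M.mulVec w = lam • w ∧ v ⬝ᵥ M.mulVec v ≤ lam * (v ⬝ᵥ v)

/-- a finitely supported probability distribution on the integers -/
structure Dist (D : Finset ℤ) (p : ℤ → ℝ) : Prop where
  pos : ∀ j ∈ D, 0 < p j
  zero : ∀ j, j ∉ D → p j = 0
  sum : ∑ j ∈ D, p j = 1

/-- the entropy -/
def ent (D : Finset ℤ) (p : ℤ → ℝ) : ℝ := - ∑ j ∈ D, p j * Real.log (p j)

/-- the affinity of the distribution and of its translate -/
def aff (D : Finset ℤ) (p : ℤ → ℝ) : ℝ := ∑ j ∈ D, √(p j * p (j + 1))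

/-- CHR (60 lines).
Proof. The function `φ t = ∑ j ∈ D, p j * exp (t * (- log (p j) - h))` has `φ 0 = 1` and derivative
`ent D p - h < 0` at `0`, so `φ t < 1` for small `t > 0`; take `q = φ t`. -/
def S_CHR : Prop :=
  ∀ (D : Finset ℤ) (p : ℤ → ℝ) (h : ℝ), Dist D p → ent D p < h →
    ∃ t q : ℝ, 0 < t ∧ 0 ≤ q ∧ q < 1 ∧ ∑ j ∈ D, p j * Real.exp (t * (- Real.log (p j) - h)) ≤ q

/-- TYP (the typical set, 150 lines; uses `S_CHR`).
Proof. `P k = ∏ i, p (k i)`, `T = Fintype.piFinset (fun _ => D)`, `∑ k ∈ T, P k = 1`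
(`Finset.prod_univ_sum`), `B = {k ∈ T | exp (- m h) ≤ P k}`, `ψ k = √(P k)` on `B` and `0` outside.
`B.card * exp (- m h) ≤ ∑ k ∈ B, P k ≤ 1`. Put `τ = ∑ k ∈ T \ B, P k`; for `k ∈ T \ B`:
`1 ≤ exp (t * (- m h - log (P k)))`, so
`τ ≤ ∑ k ∈ T, ∏ i, (p (k i) * exp (t * (- log (p (k i)) - h))) ≤ q ^ m` (`S_CHR`), which is as small as we
like for large `m`. `∑ k ∈ B, ψ k ^ 2 = 1 - τ`. For each `i`:
`∑ k ∈ T, √(P k * P (k + single i 1)) = aff D p * 1` (product formula: the factor `i` gives `aff`, the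
others `∑ √(p j * p j) = 1`), and the terms with `k ∉ B` or `k + single i 1 ∉ B` (and
`k + single i 1 ∈ T`) have the sum at most `2 √τ` (Cauchy-Schwarz: `∑ √(P k P k') ≤ √(∑ P k) √(∑ P k')`).
So the sum in the last line is at least `aff D p - 2 √τ`. -/
def S_TYP : Prop :=
  S_CHR → ∀ (D : Finset ℤ) (p : ℤ → ℝ) (h η : ℝ), Dist D p → ent D p < h → 0 < η →
    ∃ m₀ : ℕ, ∀ m : ℕ, m₀ ≤ m → ∃ (B : Finset (Fin m → ℤ)) (ψ : (Fin m → ℤ) → ℝ),
      (B.card : ℝ) ≤ Real.exp (m * h) ∧ (∀ k, 0 ≤ ψ k) ∧ (∀ k, k ∉ B → ψ k = 0) ∧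
      (∑ k ∈ B, ψ k ^ 2 ≤ 1) ∧ 0 < ∑ k ∈ B, ψ k ^ 2 ∧
      ∀ i : Fin m, aff D p - η ≤ ∑ k ∈ B, ψ k * ψ (k + Pi.single i 1)

/-- the distribution for kissing configurations -/
def pk (j : ℤ) : ℝ :=
  if j = 0 then 8618 / 10000 else if j = 1 ∨ j = -1 then 682 / 10000 else
    if j = 2 ∨ j = -2 then 9 / 10000 else 0

/-- its support -/
def Dk : Finset ℤ := {-2, -1, 0, 1, 2}

/-- NUM (60 lines).
Proof. `aff = 2 √(0.8618 * 0.0682) + 2 √(0.0682 * 0.0009) > 2 * 0.24243 + 2 * 0.00783 = 0.50052`. The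
entropy is `< 0.7317 log 2` (it is `0.73156 log 2`): this says
`10000 ^ 10000 < 2 ^ 7317 * 8618 ^ 8618 * 682 ^ 1364 * 9 ^ 18` (natural numbers; the kernel computes this
at once with `by decide +kernel` or `Nat.lt_of_ble_eq_true rfl` or `norm_num`, perhaps with
`set_option exponentiation.threshold 20000`); take logarithms. -/
def S_NUM : Prop :=
  Dist Dk pk ∧ (1 / 2 : ℝ) < aff Dk pk ∧ ent Dk pk < 7317 / 10000 * Real.log 2

/-- BLK (commuting isometries, 200 lines). `M` commuting isometries act on a unit vector `x` through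
orthogonal blocks of dimension one and two.
Proof. We may add the identity to the family (apply the statement for `M + 1` and restrict). The
operators `S j k = U j⁻¹ U k + U k⁻¹ U j` are symmetric and commute, so `ℝ ^ n` is the orthogonal sum of
their joint eigenspaces (`LinearMap.IsSymmetric.directSum_isInternal_of_pairwise_commute`,
`Mathlib/Analysis/InnerProductSpace/JointEigenspace.lean`), which are invariant under all `U j`. Let
`x = ∑ y`, `y` the (nonzero) components of `x` in the eigenspaces, `v = y / ‖y‖`, `g = U j`, `h = U k`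
(`U` of some index is the identity) and `(g + g⁻¹) v = 2 c v`, `(h + h⁻¹) v = 2 d v`,
`(g⁻¹ h + h⁻¹ g) v = 2 e v`. Put `P = (g - g⁻¹) / 2`, `Q = (h - h⁻¹) / 2` (skew, commuting); so
`g v = c v + P v`, `h v = d v + Q v`, `P v`, `Q v` are orthogonal to `v`. From
`(g + g⁻¹) (h + h⁻¹) v = 4 c d v` and `(g h⁻¹ + g⁻¹ h) v = 2 e v` one gets
`(g h + g⁻¹ h⁻¹) v = (4 c d - 2 e) v`, so `P Q v = (c d - e) v`, and `P P v = (c ^ 2 - 1) v`; apply `P` to
the former: `(c ^ 2 - 1) Q v = Q P P v = P P Q v = (c d - e) P v`. Also `‖P v‖ ^ 2 = 1 - c ^ 2`. So if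
`P v ≠ 0` for one `j` then, with `w = P v / ‖P v‖`, all `U k v` are in the span of the orthonormal
vectors `v`, `w`: `U k v = (z k).re v + (z k).im w` with `‖z k‖ = 1`, and
`⟨U j v, U k v⟩ = (z j * conj (z k)).re`; this is a block of dimension two. If `P v = 0` for all `j`
then `U k v = ± v` for all `k`: a block of dimension one. The vectors `v`, `w` of all the blocks are
orthonormal (different eigenspaces are orthogonal), so `r₁ + 2 r₂ ≤ n`; and
`⟨U j x, U k x⟩ = ∑ ‖y‖ ^ 2 ⟨U j v, U k v⟩`. Any other proof is welcome. -/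
def S_BLK : Prop :=
  ∀ (n M : ℕ) (U : Fin M → (EuclideanSpace ℝ (Fin n) ≃ₗᵢ[ℝ] EuclideanSpace ℝ (Fin n))),
    (∀ j k, ∀ x, U j (U k x) = U k (U j x)) → ∀ x : EuclideanSpace ℝ (Fin n), ‖x‖ = 1 →
    ∃ (r₁ r₂ : ℕ) (a : Fin r₁ → ℝ) (b : Fin r₂ → ℝ) (σ : Fin M → Fin r₁ → ℝ)
      (z : Fin M → Fin r₂ → ℂ), r₁ + 2 * r₂ ≤ n ∧ (∀ i, 0 ≤ a i) ∧ (∀ i, 0 ≤ b i) ∧
      ∑ i, a i + ∑ i, b i = 1 ∧ (∀ j i, σ j i = 1 ∨ σ j i = -1) ∧ (∀ j i, ‖z j i‖ = 1) ∧
      ∀ j k, inner ℝ (U j x) (U k x) =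
        ∑ i, a i * (σ j i * σ k i) + ∑ i, b i * (z j i * conj (z k i)).re

/-- PAIR (100 lines). The blocks of dimension one are joined in pairs.
Proof. `m = r₂ + (r₁ + 1) / 2`. For a pair `i, i'` of blocks of dimension one with `a i + a i' > 0` take
the weight `a i + a i'` and `u j = (√(a i) σ j i + √(a i') σ j i' * I) / √(a i + a i')`; if the sum is `0`
take `u j = 1`; a last single block gives `a i`, `σ j i`. (By induction on `r₁` in steps of two, or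
`Fin (2 q) ≃ Fin q × Fin 2`, or with `a (2 i)`, `a (2 i + 1)` extended by zero.) -/
def S_PAIR : Prop :=
  ∀ (n M r₁ r₂ : ℕ) (a : Fin r₁ → ℝ) (b : Fin r₂ → ℝ) (σ : Fin M → Fin r₁ → ℝ)
    (z : Fin M → Fin r₂ → ℂ), r₁ + 2 * r₂ ≤ n → (∀ i, 0 ≤ a i) → (∀ i, 0 ≤ b i) →
    ∑ i, a i + ∑ i, b i = 1 → (∀ j i, σ j i = 1 ∨ σ j i = -1) → (∀ j i, ‖z j i‖ = 1) →
    ∃ (m : ℕ) (c : Fin m → ℝ) (u : Fin M → Fin m → ℂ), 2 * m ≤ n + 1 ∧ (∀ i, 0 ≤ c i) ∧
      ∑ i, c i = 1 ∧ (∀ j i, ‖u j i‖ = 1) ∧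
      ∀ j k, ∑ i, c i * (u j i * conj (u k i)).re =
        ∑ i, a i * (σ j i * σ k i) + ∑ i, b i * (z j i * conj (z k i)).re

/-- GEO (50 lines). Codes in `ℂ ^ m` with the same absolute values of the coordinates.
Proof. If `X` is empty take `a i = 1 / m` (`m = 0` is excluded by `0 < m`); else `a i = ‖x₀ i‖ ^ 2` and
`u x i = x i / ‖x i‖`, or `1` if `x i = 0`. -/
def S_GEO : Prop :=
  ∀ (m : ℕ) (s : ℝ) (X : Finset (EuclideanSpace ℂ (Fin m))), 0 < m → (∀ x ∈ X, ‖x‖ = 1) →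
    (∀ x ∈ X, ∀ y ∈ X, x ≠ y → (inner ℂ x y).re ≤ s) →
    (∀ x ∈ X, ∀ y ∈ X, ∀ i, ‖x i‖ = ‖y i‖) →
    ∃ (a : Fin m → ℝ) (u : X → Fin m → ℂ), TCode s X a u

end

end Pool.Agent.P8H19.AO
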